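import Pool.Agent.H12.UCR.Stmts

/-!
# Board `ucr`, row NBH: basic neighbourhoods in terms of Fourier coefficients
-/

set_option autoImplicit false

open MeasureTheory Filter Topology

namespace Pool.UCR

theorem nbh_thm (h1 : CPTS) (h2 : CTFS) (h3 : INJS) : NBHS := by
  intro p μ W hW hμ
  have : CompactSpace (PP p) := (h1 p).1
  by_contra hcon
  have hcon' : ∀ (m : ℕ) (η : ℝ), 0 < η → ∃ ν : PP p, Near m η (fc ν) (fc μ) ∧ ν ∉ W := by
    intro m η hη
    by_contra h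
    refine hcon ⟨m, η, hη, fun ν hν => ?_⟩
    by_contra h'
    exact h ⟨ν, hν, h'⟩
  let K : ℕ → Set (PP p) := fun i =>
    Wᶜ ∩ ⋂ j : ℕ, ⋂ (_ : j ≤ i), {ν : PP p | ‖fc ν j - fc μ j‖ ≤ 1 / ((i : ℝ) + 1)}
  have hmem : ∀ (i : ℕ) (ν : PP p), ν ∈ K i ↔
      ν ∉ W ∧ ∀ j ≤ i, ‖fc ν j - fc μ j‖ ≤ 1 / ((i : ℝ) + 1) := by
    intro i ν
    constructor
    · rintro ⟨ha, hb⟩
      refine ⟨ha, fun j hj => ?_⟩
      have hc := Set.mem_iInter.1 hb j
      exact Set.mem_iInter.1 hc hj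
    · rintro ⟨ha, hb⟩
      exact ⟨ha, Set.mem_iInter.2 fun j => Set.mem_iInter.2 fun hj => hb j hj⟩
  have hcl : ∀ i, IsClosed (K i) := fun i =>
    hW.isClosed_compl.inter (isClosed_iInter fun j => isClosed_iInter fun _ =>
      isClosed_le ((h2 p j).sub continuous_const).norm continuous_const)
  have hne : ∀ i, (K i).Nonempty := by
    intro i
    obtain ⟨ν, hν, hνW⟩ := hcon' i (1 / ((i : ℝ) + 1)) (by positivity)
    exact ⟨ν, (hmem i ν).2 ⟨hνW, fun j hj => (hν j hj).le⟩⟩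
  have hdec : ∀ i, K (i + 1) ⊆ K i := by
    intro i ν hν
    obtain ⟨ha, hb⟩ := (hmem (i + 1) ν).1 hν
    refine (hmem i ν).2 ⟨ha, fun j hj => (hb j (by omega)).trans ?_⟩
    apply one_div_le_one_div_of_le (by positivity)
    push_cast
    linarith only
  obtain ⟨ν, hν⟩ := IsCompact.nonempty_iInter_of_sequence_nonempty_isCompact_isClosed K hdec hne
    (hcl 0).isCompact hcl
  have hν' : ∀ i, ν ∈ K i := fun i => Set.mem_iInter.1 hν i
  have heq : ν = μ := by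
    refine h3 p ν μ fun j => ?_
    by_contra hj
    have hd : 0 < ‖fc ν j - fc μ j‖ := norm_pos_iff.2 (sub_ne_zero.2 hj)
    obtain ⟨n, hn⟩ := exists_nat_one_div_lt hd
    have h4 := ((hmem (max n j) ν).1 (hν' (max n j))).2 j (le_max_right _ _)
    have h5 : (1 : ℝ) / (((max n j : ℕ) : ℝ) + 1) ≤ 1 / ((n : ℝ) + 1) := by
      apply one_div_le_one_div_of_le (by positivity)
      have h6 : (n : ℝ) ≤ ((max n j : ℕ) : ℝ) := by exact_mod_cast le_max_left n j
      linarith only [h6]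
    linarith only [h4, h5, hn]
  exact ((hmem 0 ν).1 (hν' 0)).1 (heq ▸ hμ)

end Pool.UCR
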